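import Mathlib
import Pool.Agent.TH369.AG.J9
import Pool.Agent.TH369.AG.K13

/-!
# The mass gap of the two-dimensional arboreal gas at every `β`

For every `β > 0` the connection probabilities of the arboreal gas (random spanning forest with
weight `β ^ |F|`) on the torus `(ℤ/L)²` decay exponentially in the graph distance, uniformly in
`L`, with rate at least `exp (- A (1 + β²))`, where `A` is a universal constant.
-/

set_option autoImplicit false

namespace Pool.Agent.Results.MP_a51497_pr.MassGap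

noncomputable section

/-- The vertices of the torus `Λ_L = (ℤ/L)²`. -/
abbrev Vtx (L : ℕ) := ZMod L × ZMod L

/-- The torus `Λ_L` with its nearest-neighbour edges. -/
def torus (L : ℕ) : SimpleGraph (Vtx L) where
  Adj x y := x ≠ y ∧ ((x.1 = y.1 ∧ (x.2 = y.2 + 1 ∨ y.2 = x.2 + 1)) ∨
    (x.2 = y.2 ∧ (x.1 = y.1 + 1 ∨ y.1 = x.1 + 1)))
  symm := ⟨fun x y h => ⟨h.1.symm, by
    rcases h.2 with ⟨h1, h2⟩ | ⟨h1, h2⟩
    · exact Or.inl ⟨h1.symm, h2.symm⟩
    · exact Or.inr ⟨h1.symm, h2.symm⟩⟩⟩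
  loopless := ⟨fun x h => h.1 rfl⟩

open Classical in
/-- The spanning forests of the torus: the sets of edges which contain no cycle. -/
def forests (L : ℕ) [NeZero L] : Finset (Finset (Sym2 (Vtx L))) :=
  Finset.univ.filter fun F : Finset (Sym2 (Vtx L)) => (F : Set (Sym2 (Vtx L))) ⊆ (torus L).edgeSet ∧
    (SimpleGraph.fromEdgeSet (F : Set (Sym2 (Vtx L)))).IsAcyclic

/-- The partition function `Z = ∑_F β ^ |F|`. -/
def Z (β : ℝ) (L : ℕ) [NeZero L] : ℝ := ∑ F ∈ forests L, β ^ F.card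

open Classical in
/-- The probability that `i` and `j` lie in the same tree of the arboreal gas on `Λ_L`. -/
def conn (β : ℝ) (L : ℕ) [NeZero L] (i j : Vtx L) : ℝ :=
  (∑ F ∈ (forests L).filter (fun F : Finset (Sym2 (Vtx L)) =>
    (SimpleGraph.fromEdgeSet (F : Set (Sym2 (Vtx L)))).Reachable i j), β ^ F.card) / Z β L

theorem conn_eq (β : ℝ) (L : ℕ) [NeZero L] (s t : Sym2 (Vtx L) → Vtx L) (hst : ∀ e, e = s(s e, t e))
    (S : Finset (Sym2 (Vtx L))) (hS : ∀ e, e ∈ S ↔ e ∈ (torus L).edgeSet) (i j : Vtx L) :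
    conn β L i j = TH369.AG.PG s t (fun _ => β) S i j := by
  classical
  have hd : ∀ F : Finset (Sym2 (Vtx L)), F ⊆ S → ∀ e ∈ F, ¬ e.IsDiag := fun F hF e he =>
    (torus L).not_isDiag_of_mem_edgeSet ((hS e).mp (hF he))
  have hsub : ∀ F : Finset (Sym2 (Vtx L)), (F : Set (Sym2 (Vtx L))) ⊆ (torus L).edgeSet ↔ F ⊆ S := by
    intro F
    constructor
    · intro h e he
      exact (hS e).mpr (h he)
    · intro h e he
      exact (hS e).mp (h he)
  unfold conn TH369.AG.PG Z
  congr 1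
  · unfold TH369.AG.FS forests
    rw [Finset.filter_filter]
    refine Finset.sum_congr ?_ fun F _ => by rw [Finset.prod_const]
    ext F
    simp only [Finset.mem_filter, Finset.mem_univ, true_and, Finset.mem_powerset, hsub]
    constructor
    · rintro ⟨⟨h1, h2⟩, h3⟩
      exact ⟨h1, (TH369.AG.acyclic_iff F (hd F h1) s t hst).mp h2,
        (TH369.AG.reachable_iff F (hd F h1) s t hst i j).mp h3⟩
    · rintro ⟨h1, h2, h3⟩
      exact ⟨⟨h1, (TH369.AG.acyclic_iff F (hd F h1) s t hst).mpr h2⟩,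
        (TH369.AG.reachable_iff F (hd F h1) s t hst i j).mpr h3⟩
  · unfold TH369.AG.FS forests
    refine Finset.sum_congr ?_ fun F _ => by rw [Finset.prod_const]
    ext F
    simp only [Finset.mem_filter, Finset.mem_univ, true_and, Finset.mem_powerset, hsub, and_true]
    constructor
    · rintro ⟨h1, h2⟩
      exact ⟨h1, (TH369.AG.acyclic_iff F (hd F h1) s t hst).mp h2⟩
    · rintro ⟨h1, h2⟩
      exact ⟨h1, (TH369.AG.acyclic_iff F (hd F h1) s t hst).mpr h2⟩

/-- **Mass gap of the two-dimensional arboreal gas.** There is a universal constant `A` such that for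
every `β > 0`, every `L ≥ 1` and all `i, j` in the torus `(ℤ/L)²`
`P_β [i ↔ j] ≤ 2 exp (- exp (- A (1 + β²)) |i - j|)`. -/
theorem result : ∃ A : ℝ, 0 < A ∧ ∀ β : ℝ, 0 < β → ∀ (L : ℕ) [NeZero L] (i j : Vtx L),
    conn β L i j ≤
      2 * Real.exp (-(Real.exp (-(A * (1 + β ^ 2))) * ((torus L).dist i j : ℝ))) := by
  classical
  obtain ⟨A, hA, h⟩ := TH369.AG.decay
  refine ⟨A, hA, ?_⟩
  intro β hβ L _ i j
  have hst : ∀ e : Sym2 (Vtx L), e = s((Quot.out e).1, (Quot.out e).2) := fun e =>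
    (Quot.out_eq e).symm
  have hS : ∀ e, e ∈ Finset.univ.filter (fun e : Sym2 (Vtx L) => e ∈ (torus L).edgeSet) ↔
      e ∈ (torus L).edgeSet := fun e => by simp
  rw [conn_eq β L (fun e => (Quot.out e).1) (fun e => (Quot.out e).2) hst _ hS i j]
  have h1 := h β hβ L (fun e => (Quot.out e).1) (fun e => (Quot.out e).2) hst _ hS i j
  refine h1.trans (le_of_eq ?_)
  unfold TH369.AG.DD
  rw [neg_mul]
  rfl

end

end Pool.Agent.Results.MP_a51497_pr.MassGap
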